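import Pool.Agent.H20.G.R_seed8.W834.NG.Base

/-!
# Counting: the bounds for the sums `F`
-/

set_option autoImplicit false

namespace Pool.Agent.W834.NG

open Finset Module

variable {K A ι I : Type*} [Field K] [CommRing A] [Algebra K A] [Fintype ι]
  [DecidableEq ι] [DecidableEq I]

section sets

omit [Fintype ι]

theorem high_union {H L : Finset ι} (hd : Disjoint H L) {key : ι → ℕ} (hkH : Set.InjOn key H)
    {k : ι} (hk : k ∈ H) :
    (H.filter fun l => key k < key l) ∪ (L ∪ H.filter fun l => key l < key k) =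
      (H ∪ L).erase k := by
  have hkL' : k ∉ L := Finset.disjoint_left.1 hd hk
  ext l
  simp only [Finset.mem_erase, Finset.mem_union, Finset.mem_filter]
  constructor
  · rintro (⟨h1, h3⟩ | h1 | ⟨h1, h3⟩)
    · exact ⟨fun h0 => by subst h0; exact lt_irrefl _ h3, Or.inl h1⟩
    · exact ⟨fun h0 => by subst h0; exact hkL' h1, Or.inr h1⟩
    · exact ⟨fun h0 => by subst h0; exact lt_irrefl _ h3, Or.inl h1⟩
  · rintro ⟨h1, h3 | h3⟩
    · have : key l ≠ key k := fun h0 => h1 (hkH h3 hk h0)
      rcases lt_or_gt_of_ne this with h4 | h4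
      · exact Or.inr (Or.inr ⟨h3, h4⟩)
      · exact Or.inl ⟨h3, h4⟩
    · exact Or.inr (Or.inl h3)

theorem low_union {H L : Finset ι} (hd : Disjoint H L) {key : ι → ℕ} (hkL : Set.InjOn key L)
    {k : ι} (hk : k ∈ L) :
    (H ∪ L.filter fun l => key k < key l) ∪ (L.filter fun l => key l < key k) =
      (H ∪ L).erase k := by
  have hkH' : k ∉ H := fun h0 => Finset.disjoint_left.1 hd h0 hk
  ext l
  simp only [Finset.mem_erase, Finset.mem_union, Finset.mem_filter]
  constructor
  · rintro ((h1 | ⟨h1, h3⟩) | ⟨h1, h3⟩)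
    · exact ⟨fun h0 => by subst h0; exact hkH' h1, Or.inl h1⟩
    · exact ⟨fun h0 => by subst h0; exact lt_irrefl _ h3, Or.inr h1⟩
    · exact ⟨fun h0 => by subst h0; exact lt_irrefl _ h3, Or.inr h1⟩
  · rintro ⟨h1, h3 | h3⟩
    · exact Or.inl (Or.inl h3)
    · have : key l ≠ key k := fun h0 => h1 (hkL h3 hk h0)
      rcases lt_or_gt_of_ne this with h4 | h4
      · exact Or.inr ⟨h3, h4⟩
      · exact Or.inl (Or.inr ⟨h3, h4⟩)

theorem high_disj {H L : Finset ι} (hd : Disjoint H L) (key : ι → ℕ) (k : ι) :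
    Disjoint (H.filter fun l => key k < key l) (L ∪ H.filter fun l => key l < key k) := by
  rw [Finset.disjoint_left]
  intro l hl hl'
  rw [Finset.mem_filter] at hl
  rcases Finset.mem_union.1 hl' with h | h
  · exact Finset.disjoint_left.1 hd hl.1 h
  · rw [Finset.mem_filter] at h
    exact lt_asymm hl.2 h.2

theorem low_disj {H L : Finset ι} (hd : Disjoint H L) (key : ι → ℕ) (k : ι) :
    Disjoint (H ∪ L.filter fun l => key k < key l) (L.filter fun l => key l < key k) := by
  rw [Finset.disjoint_left]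
  intro l hl hl'
  rw [Finset.mem_filter] at hl'
  rcases Finset.mem_union.1 hl with h | h
  · exact Finset.disjoint_left.1 hd h hl'.1
  · rw [Finset.mem_filter] at h
    exact lt_asymm hl'.2 h.2

end sets

/-- uniform bound from the recursion -/
theorem F_rec_card {X : ι → A} {α : I → ι → K} {T : Finset I} {i₀ : I} (hi₀ : i₀ ∈ T)
    (H L : Finset ι) (hd : Disjoint H L) (h2 : 2 ≤ (H ∪ L).card)
    (hα : ∀ k, Set.InjOn (fun i => α i k) T) (N B : ℕ)
    (h : ∀ H' L' : Finset ι, Disjoint H' L' → (∃ k ∈ H ∪ L, H' ∪ L' = (H ∪ L).erase k) →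
      F X α N H' L' (T.erase i₀) ≤ B) :
    F X α N H L T ≤ (H ∪ L).card * B := by
  obtain ⟨key, hkey⟩ : ∃ key : ι → ℕ, Function.Injective key :=
    ⟨fun l => (Fintype.equivFin ι l : ℕ), fun a b hab =>
      (Fintype.equivFin ι).injective (Fin.ext hab)⟩
  have h1 := F_rec (X := X) hi₀ H L hd h2 key hkey.injOn hkey.injOn
    (fun k _ i hi hne h0 => hne (hα k hi hi₀ h0)) N
  refine h1.trans ?_
  rw [Finset.card_union_of_disjoint hd, Nat.add_mul]
  refine Nat.add_le_add ?_ ?_
  · rw [← smul_eq_mul, ← Finset.sum_const]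
    refine Finset.sum_le_sum fun k hk => ?_
    exact h _ _ (high_disj hd key k)
      ⟨k, Finset.mem_union_left _ hk, high_union hd hkey.injOn hk⟩
  · rw [← smul_eq_mul, ← Finset.sum_const]
    refine Finset.sum_le_sum fun k hk => ?_
    exact h _ _ (low_disj hd key k)
      ⟨k, Finset.mem_union_right _ hk, low_union hd hkey.injOn hk⟩

/-- one variable -/
theorem F_one {X : ι → A} {α : I → ι → K} {T : Finset I} (hT : 2 ≤ T.card)
    (hα : ∀ k, Set.InjOn (fun i => α i k) T) (N : ℕ) {H L : Finset ι} (hd : Disjoint H L)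
    (h1 : (H ∪ L).card = 1) : F X α N H L T ≤ 1 := by
  obtain ⟨i, hi, i', hi', hne⟩ := Finset.one_lt_card.1 (show 1 < T.card by omega)
  obtain ⟨k, hk⟩ := Finset.card_eq_one.1 h1
  have hf := fill_single X (α := α) (k := k) hi hi' (fun h0 => hne (hα k hi hi' h0))
  have hp := F_pure X α N {k} (Finset.singleton_nonempty k) T hf
  have hH : H ⊆ {k} := by rw [← hk]; exact Finset.subset_union_left
  have hL : L ⊆ {k} := by rw [← hk]; exact Finset.subset_union_right
  rcases Finset.subset_singleton_iff.1 hH with h | h <;>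
  rcases Finset.subset_singleton_iff.1 hL with h' | h'
  · exfalso; rw [h, h'] at h1; simp at h1
  · rw [h, h']; exact hp.2
  · rw [h, h']; exact hp.1
  · exfalso
    rw [h, h', Finset.disjoint_self_iff_empty] at hd
    exact Finset.singleton_ne_empty k hd

/-- the trivial bound -/
theorem F_triv {X : ι → A} {α : I → ι → K} (N : ℕ) : ∀ (n : ℕ) (T : Finset I),
    (∀ k, Set.InjOn (fun i => α i k) T) → n + 2 ≤ T.card → ∀ H L : Finset ι, Disjoint H L →
    (H ∪ L).card = n + 1 → F X α N H L T ≤ (n + 1).factorial := by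
  intro n
  induction n with
  | zero =>
    intro T hα hT H L hd h1
    exact F_one (by omega) hα N hd h1
  | succ n ih =>
    intro T hα hT H L hd h1
    obtain ⟨i₀, hi₀⟩ := Finset.card_pos.1 (show 0 < T.card by omega)
    have := F_rec_card (X := X) hi₀ H L hd (by omega) hα N (n + 1).factorial (by
      rintro H' L' hd' ⟨k, hk, hu⟩
      refine ih (T.erase i₀) (fun k => (hα k).mono (Finset.coe_subset.2 (Finset.erase_subset _ _)))
        ?_ H' L' hd' ?_
      · rw [Finset.card_erase_of_mem hi₀]; omega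
      · rw [hu, Finset.card_erase_of_mem hk]; omega)
    rwa [h1, ← Nat.factorial_succ] at this

theorem F_two {X : ι → A} {α : I → ι → K} {T : Finset I} (hT : 3 ≤ T.card)
    (hα : ∀ k, Set.InjOn (fun i => α i k) T) (N : ℕ) {H L : Finset ι} (hd : Disjoint H L)
    (h1 : (H ∪ L).card = 2) : F X α N H L T ≤ 2 :=
  F_triv N 1 T hα hT H L hd h1

/-- the pair `x, y` is in general position -/
def Good (X : ι → A) (α : I → ι → K) (T : Finset I) (x y : ι) : Prop :=
  P K X (ind {x, y}) ≤ Rel X α {x, y} (ind {x, y}) T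

omit [DecidableEq I] in
theorem Good.symm {X : ι → A} {α : I → ι → K} {T : Finset I} {x y : ι} (h : Good X α T x y) :
    Good X α T y x := by
  unfold Good at *
  rwa [Finset.pair_comm]

theorem Good.high {X : ι → A} {α : I → ι → K} {T : Finset I} {x y : ι} (h : Good X α T x y)
    (N : ℕ) : F X α N {x, y} ∅ T ≤ 1 :=
  (F_pure X α N {x, y} (Finset.insert_nonempty _ _) T h).1

theorem Good.low {X : ι → A} {α : I → ι → K} {T : Finset I} {x y : ι} (h : Good X α T x y)
    (N : ℕ) : F X α N ∅ {x, y} T ≤ 1 :=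
  (F_pure X α N {x, y} (Finset.insert_nonempty _ _) T h).2

/-- the key that orders three elements -/
def key3 (x y : ι) : ι → ℕ := fun l => if l = x then 0 else if l = y then 1 else 2

section three

variable {X : ι → A} {α : I → ι → K} {T : Finset I} {i₀ : I} (hi₀ : i₀ ∈ T)
  (hα : ∀ k, Set.InjOn (fun i => α i k) T) (N : ℕ) {x y z : ι} (hxy : x ≠ y) (hxz : x ≠ z)
  (hyz : y ≠ z)

include hi₀ hα hxy hxz hyz

theorem F30 : F X α N {x, y, z} ∅ T ≤ F X α N {y, z} ∅ (T.erase i₀) +
    F X α N {z} {x} (T.erase i₀) + F X α N ∅ {x, y} (T.erase i₀) := by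
  have hyx := hxy.symm
  have hzx := hxz.symm
  have hzy := hyz.symm
  have h1 := F_rec (X := X) hi₀ {x, y, z} ∅ (Finset.disjoint_empty_right _) (by
    rw [Finset.union_empty, Finset.card_eq_three.2 ⟨x, y, z, hxy, hxz, hyz, rfl⟩]; omega)
    (key3 x y) (by
      intro a ha b hb hab
      simp only [Finset.coe_insert, Finset.coe_singleton, Set.mem_insert_iff,
        Set.mem_singleton_iff] at ha hb
      rcases ha with rfl | rfl | rfl <;> rcases hb with rfl | rfl | rfl <;>
        simp_all [key3]) (by simp)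
    (fun k _ i hi hne h0 => hne (hα k hi hi₀ h0)) N
  rw [Finset.sum_empty, add_zero, Finset.sum_insert (by simp [hxy, hxz]),
    Finset.sum_insert (by simp [hyz]), Finset.sum_singleton, ← add_assoc] at h1
  have kx : key3 x y x = 0 := by simp [key3]
  have ky : key3 x y y = 1 := by simp [key3, hyx]
  have kz : key3 x y z = 2 := by simp [key3, hzx, hzy]
  simp only [Finset.filter_insert, Finset.filter_singleton, kx, ky, kz] at h1
  norm_num at h1
  exact h1

theorem F03 : F X α N ∅ {x, y, z} T ≤ F X α N {y, z} ∅ (T.erase i₀) +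
    F X α N {z} {x} (T.erase i₀) + F X α N ∅ {x, y} (T.erase i₀) := by
  have hyx := hxy.symm
  have hzx := hxz.symm
  have hzy := hyz.symm
  have h1 := F_rec (X := X) hi₀ ∅ {x, y, z} (Finset.disjoint_empty_left _) (by
    rw [Finset.empty_union, Finset.card_eq_three.2 ⟨x, y, z, hxy, hxz, hyz, rfl⟩]; omega)
    (key3 x y) (by simp) (by
      intro a ha b hb hab
      simp only [Finset.coe_insert, Finset.coe_singleton, Set.mem_insert_iff,
        Set.mem_singleton_iff] at ha hb
      rcases ha with rfl | rfl | rfl <;> rcases hb with rfl | rfl | rfl <;>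
        simp_all [key3])
    (fun k _ i hi hne h0 => hne (hα k hi hi₀ h0)) N
  rw [Finset.sum_empty, zero_add, Finset.sum_insert (by simp [hxy, hxz]),
    Finset.sum_insert (by simp [hyz]), Finset.sum_singleton, ← add_assoc] at h1
  have kx : key3 x y x = 0 := by simp [key3]
  have ky : key3 x y y = 1 := by simp [key3, hyx]
  have kz : key3 x y z = 2 := by simp [key3, hzx, hzy]
  simp only [Finset.filter_insert, Finset.filter_singleton, kx, ky, kz] at h1
  norm_num at h1
  exact h1

theorem F21 : F X α N {x, y} {z} T ≤ F X α N {y} {z} (T.erase i₀) +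
    F X α N ∅ {z, x} (T.erase i₀) + F X α N {x, y} ∅ (T.erase i₀) := by
  have hyx := hxy.symm
  have hzx := hxz.symm
  have hzy := hyz.symm
  have h1 := F_rec (X := X) hi₀ {x, y} {z} (by simp [hzx, hzy]) (by
    have : ({x, y} ∪ {z} : Finset ι) = {x, y, z} := by
      ext l; simp
    rw [this, Finset.card_eq_three.2 ⟨x, y, z, hxy, hxz, hyz, rfl⟩]; omega)
    (key3 x y) (by
      intro a ha b hb hab
      simp only [Finset.coe_insert, Finset.coe_singleton, Set.mem_insert_iff,
        Set.mem_singleton_iff] at ha hb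
      rcases ha with rfl | rfl <;> rcases hb with rfl | rfl <;>
        simp_all [key3]) (by simp)
    (fun k _ i hi hne h0 => hne (hα k hi hi₀ h0)) N
  rw [Finset.sum_insert (by simp [hxy]), Finset.sum_singleton, Finset.sum_singleton] at h1
  have kx : key3 x y x = 0 := by simp [key3]
  have ky : key3 x y y = 1 := by simp [key3, hyx]
  have kz : key3 x y z = 2 := by simp [key3, hzx, hzy]
  simp only [Finset.filter_insert, Finset.filter_singleton, kx, ky, kz] at h1
  norm_num at h1
  exact h1

theorem F12 : F X α N {z} {x, y} T ≤ F X α N ∅ {x, y} (T.erase i₀) +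
    F X α N {z, y} ∅ (T.erase i₀) + F X α N {z} {x} (T.erase i₀) := by
  have hyx := hxy.symm
  have hzx := hxz.symm
  have hzy := hyz.symm
  have h1 := F_rec (X := X) hi₀ {z} {x, y} (by simp [hzx, hzy]) (by
    have : ({z} ∪ {x, y} : Finset ι) = {z, x, y} := by
      ext l; simp only [Finset.mem_union, Finset.mem_singleton, Finset.mem_insert]
    rw [this, Finset.card_eq_three.2 ⟨z, x, y, hzx, hzy, hxy, rfl⟩]; omega)
    (key3 x y) (by simp) (by
      intro a ha b hb hab
      simp only [Finset.coe_insert, Finset.coe_singleton, Set.mem_insert_iff,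
        Set.mem_singleton_iff] at ha hb
      rcases ha with rfl | rfl <;> rcases hb with rfl | rfl <;>
        simp_all [key3])
    (fun k _ i hi hne h0 => hne (hα k hi hi₀ h0)) N
  rw [Finset.sum_insert (by simp [hxy]), Finset.sum_singleton, Finset.sum_singleton,
    ← add_assoc] at h1
  have kx : key3 x y x = 0 := by simp [key3]
  have ky : key3 x y y = 1 := by simp [key3, hyx]
  have kz : key3 x y z = 2 := by simp [key3, hzx, hzy]
  simp only [Finset.filter_insert, Finset.filter_singleton, kx, ky, kz] at h1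
  norm_num at h1
  exact h1

end three

end Pool.Agent.W834.NG
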