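import Pool.Agent.H20.G.R_seed8.W834.NG.Count

/-!
# The bounds when pairs of variables are in general position
-/

set_option autoImplicit false

namespace Pool.Agent.W834.NG

open Finset Module

variable {K A ι I : Type*} [Field K] [CommRing A] [Algebra K A] [Fintype ι]
  [DecidableEq ι] [DecidableEq I]

omit [DecidableEq I] in
theorem Good.mono {X : ι → A} {α : I → ι → K} {T T' : Finset I} (hT : T ⊆ T') {x y : ι}
    (h : Good X α T x y) : Good X α T' x y := by
  unfold Good at *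
  exact h.trans (Rel_le_of fun i hi f hf => mem_Rel (hT hi) hf)

/-- three variables, all pairs in general position -/
theorem F_three {X : ι → A} {α : I → ι → K} {T₄ T : Finset I} (h4 : T₄.card = 4) (hT4 : T₄ ⊆ T)
    (hT : 5 ≤ T.card) (hα : ∀ k, Set.InjOn (fun i => α i k) T)
    (hg : ∀ x y, x ≠ y → Good X α T₄ x y) (N : ℕ) {H L : Finset ι} (hd : Disjoint H L)
    (h1 : (H ∪ L).card = 3) : F X α N H L T ≤ 4 := by
  obtain ⟨i₀, hi₀, hi₀'⟩ : ∃ i ∈ T, i ∉ T₄ := by
    by_contra hcon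
    push Not at hcon
    have := Finset.card_le_card (show T ⊆ T₄ from hcon)
    omega
  have hT4' : T₄ ⊆ T.erase i₀ := fun i hi => Finset.mem_erase.2
    ⟨fun h0 => hi₀' (h0 ▸ hi), hT4 hi⟩
  have hα' : ∀ k, Set.InjOn (fun i => α i k) ((T.erase i₀ : Finset I) : Set I) := fun k =>
    (hα k).mono (Finset.coe_subset.2 (Finset.erase_subset _ _))
  have hT' : 3 ≤ (T.erase i₀).card := by rw [Finset.card_erase_of_mem hi₀]; omega
  have hg' : ∀ x y, x ≠ y → Good X α (T.erase i₀) x y := fun x y hxy => (hg x y hxy).mono hT4'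
  have mix : ∀ x y : ι, x ≠ y → F X α N {x} {y} (T.erase i₀) ≤ 2 := by
    intro x y hxy
    refine F_two hT' hα' N (by simpa using hxy) ?_
    have : ({x} ∪ {y} : Finset ι) = {x, y} := rfl
    rw [this, Finset.card_pair hxy]
  rw [Finset.card_union_of_disjoint hd] at h1
  obtain ⟨h, h'⟩ | ⟨h, h'⟩ | ⟨h, h'⟩ | ⟨h, h'⟩ :
      (H.card = 3 ∧ L.card = 0) ∨ (H.card = 2 ∧ L.card = 1) ∨ (H.card = 1 ∧ L.card = 2) ∨
      (H.card = 0 ∧ L.card = 3) := by omega
  · obtain ⟨x, y, z, hxy, hxz, hyz, rfl⟩ := Finset.card_eq_three.1 h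
    rw [Finset.card_eq_zero] at h'
    subst h'
    have := F30 (X := X) hi₀ hα N hxy hxz hyz
    have a1 := (hg' y z hyz).high N
    have a2 := mix z x hxz.symm
    have a3 := (hg' x y hxy).low N
    omega
  · obtain ⟨x, y, hxy, rfl⟩ := Finset.card_eq_two.1 h
    obtain ⟨z, rfl⟩ := Finset.card_eq_one.1 h'
    have hz : z ≠ x ∧ z ≠ y := by simpa using hd
    have := F21 (X := X) hi₀ hα N hxy hz.1.symm hz.2.symm
    have a1 := mix y z hz.2.symm
    have a2 := (hg' z x hz.1).low N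
    have a3 := (hg' x y hxy).high N
    omega
  · obtain ⟨z, rfl⟩ := Finset.card_eq_one.1 h
    obtain ⟨x, y, hxy, rfl⟩ := Finset.card_eq_two.1 h'
    have hz : z ≠ x ∧ z ≠ y := by simpa using hd
    have := F12 (X := X) hi₀ hα N hxy hz.1.symm hz.2.symm
    have a1 := mix z x hz.1
    have a2 := (hg' x y hxy).low N
    have a3 := (hg' z y hz.2).high N
    omega
  · obtain ⟨x, y, z, hxy, hxz, hyz, rfl⟩ := Finset.card_eq_three.1 h'
    rw [Finset.card_eq_zero] at h
    subst h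
    have := F03 (X := X) hi₀ hα N hxy hxz hyz
    have a1 := (hg' y z hyz).high N
    have a2 := mix z x hxz.symm
    have a3 := (hg' x y hxy).low N
    omega

/-- the sequence of bounds -/
def gg : ℕ → ℕ
  | 0 => 4
  | n + 1 => (n + 4) * gg n

theorem gg_eq (n : ℕ) : 3 * gg n = 2 * (n + 3).factorial := by
  induction n with
  | zero => rfl
  | succ n ih =>
    show 3 * ((n + 4) * gg n) = 2 * (n + 4).factorial
    rw [Nat.factorial_succ]
    calc 3 * ((n + 4) * gg n) = (n + 4) * (3 * gg n) := by ring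
      _ = 2 * ((n + 3 + 1) * (n + 3).factorial) := by rw [ih]; ring

/-- all pairs in general position -/
theorem F_good {X : ι → A} {α : I → ι → K} {T₄ : Finset I} (h4 : T₄.card = 4)
    (hg : ∀ x y, x ≠ y → Good X α T₄ x y) (N : ℕ) : ∀ (n : ℕ) (T : Finset I), T₄ ⊆ T →
    n + 5 ≤ T.card → (∀ k, Set.InjOn (fun i => α i k) T) → ∀ H L : Finset ι, Disjoint H L →
    (H ∪ L).card = n + 3 → F X α N H L T ≤ gg n := by
  intro n
  induction n with
  | zero =>
    intro T hT4 hT hα H L hd h1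
    exact F_three h4 hT4 (by omega) hα hg N hd h1
  | succ n ih =>
    intro T hT4 hT hα H L hd h1
    obtain ⟨i₀, hi₀, hi₀'⟩ : ∃ i ∈ T, i ∉ T₄ := by
      by_contra hcon
      push Not at hcon
      have := Finset.card_le_card (show T ⊆ T₄ from hcon)
      omega
    have := F_rec_card (X := X) hi₀ H L hd (by omega) hα N (gg n) (by
      rintro H' L' hd' ⟨k, hk, hu⟩
      refine ih (T.erase i₀) (fun i hi => Finset.mem_erase.2
        ⟨fun h0 => hi₀' (h0 ▸ hi), hT4 hi⟩) ?_
        (fun k => (hα k).mono (Finset.coe_subset.2 (Finset.erase_subset _ _))) H' L' hd' ?_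
      · rw [Finset.card_erase_of_mem hi₀]; omega
      · rw [hu, Finset.card_erase_of_mem hk]; omega)
    rwa [h1] at this

/-- four variables in cyclic order, neighbouring pairs in general position -/
theorem F_four {X : Fin 4 → A} {α : I → Fin 4 → K} {T₄ T : Finset I} (h4 : T₄.card = 4)
    (hT4 : T₄ ⊆ T) (hT : 6 ≤ T.card) (hα : ∀ k, Set.InjOn (fun i => α i k) T)
    (g01 : Good X α T₄ 0 1) (g12 : Good X α T₄ 1 2) (g23 : Good X α T₄ 2 3)
    (g30 : Good X α T₄ 3 0) (N : ℕ) : F X α N univ ∅ T ≤ 16 := by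
  obtain ⟨i₀, hi₀, hi₀'⟩ : ∃ i ∈ T, i ∉ T₄ := by
    by_contra hcon
    push Not at hcon
    have := Finset.card_le_card (show T ⊆ T₄ from hcon)
    omega
  have hS4 : T₄ ⊆ T.erase i₀ := fun i hi => Finset.mem_erase.2
    ⟨fun h0 => hi₀' (h0 ▸ hi), hT4 hi⟩
  have hS : 5 ≤ (T.erase i₀).card := by rw [Finset.card_erase_of_mem hi₀]; omega
  have hβ : ∀ k, Set.InjOn (fun i => α i k) ((T.erase i₀ : Finset I) : Set I) := fun k =>
    (hα k).mono (Finset.coe_subset.2 (Finset.erase_subset _ _))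
  have h1 := F_rec (X := X) (α := α) hi₀ univ ∅ (Finset.disjoint_empty_right _) (by simp)
    (fun j : Fin 4 => (j : ℕ)) (fun a _ b _ hab => Fin.ext hab) (by simp)
    (fun k _ i hi hne h0 => hne (hα k hi hi₀ h0)) N
  rw [Finset.sum_empty, add_zero, Fin.sum_univ_four] at h1
  have e1 : (univ.filter fun l : Fin 4 => ((0 : Fin 4) : ℕ) < (l : ℕ)) = {1, 2, 3} := by decide
  have e2 : (∅ ∪ univ.filter fun l : Fin 4 => (l : ℕ) < ((0 : Fin 4) : ℕ)) = ∅ := by decide
  have e3 : (univ.filter fun l : Fin 4 => ((1 : Fin 4) : ℕ) < (l : ℕ)) = {3, 2} := by decide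
  have e4 : (∅ ∪ univ.filter fun l : Fin 4 => (l : ℕ) < ((1 : Fin 4) : ℕ)) = {0} := by decide
  have e5 : (univ.filter fun l : Fin 4 => ((2 : Fin 4) : ℕ) < (l : ℕ)) = {3} := by decide
  have e6 : (∅ ∪ univ.filter fun l : Fin 4 => (l : ℕ) < ((2 : Fin 4) : ℕ)) = {1, 0} := by decide
  have e7 : (univ.filter fun l : Fin 4 => ((3 : Fin 4) : ℕ) < (l : ℕ)) = ∅ := by decide
  have e8 : (∅ ∪ univ.filter fun l : Fin 4 => (l : ℕ) < ((3 : Fin 4) : ℕ)) = {0, 1, 2} := by
    decide
  rw [e1, e2, e3, e4, e5, e6, e7, e8] at h1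
  clear e1 e2 e3 e4 e5 e6 e7 e8
  set S := T.erase i₀ with hSdef
  obtain ⟨i₁, hi₁, hi₁'⟩ : ∃ i ∈ S, i ∉ T₄ := by
    by_contra hcon
    push Not at hcon
    have := Finset.card_le_card (show S ⊆ T₄ from hcon)
    omega
  have hR4 : T₄ ⊆ S.erase i₁ := fun i hi => Finset.mem_erase.2
    ⟨fun h0 => hi₁' (h0 ▸ hi), hS4 hi⟩
  have hγ : ∀ k, Set.InjOn (fun i => α i k) ((S.erase i₁ : Finset I) : Set I) := fun k =>
    (hβ k).mono (Finset.coe_subset.2 (Finset.erase_subset _ _))
  have hR : 3 ≤ (S.erase i₁).card := by rw [Finset.card_erase_of_mem hi₁]; omega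
  have mix : ∀ x y : Fin 4, x ≠ y → F X α N {x} {y} (S.erase i₁) ≤ 2 := by
    intro x y hxy
    refine F_two hR hγ N (by simpa using hxy) ?_
    have : ({x} ∪ {y} : Finset (Fin 4)) = {x, y} := rfl
    rw [this, Finset.card_pair hxy]
  have k01 := g01.mono hR4
  have k12 := g12.mono hR4
  have k23 := g23.mono hR4
  have k30 := g30.mono hR4
  -- `{1, 2, 3}, ∅`
  have t1 := F30 (X := X) hi₁ hβ N (x := (1 : Fin 4)) (y := 2) (z := 3) (by decide) (by decide)
    (by decide)
  have t1a := k23.high N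
  have t1b := mix 3 1 (by decide)
  have t1c := k12.low N
  -- `{3, 2}, {0}`
  have t2 := F21 (X := X) hi₁ hβ N (x := (3 : Fin 4)) (y := 2) (z := 0) (by decide) (by decide)
    (by decide)
  have t2a := mix 2 0 (by decide)
  have t2b := k30.symm.low N
  have t2c := k23.symm.high N
  -- `{3}, {1, 0}`
  have t3 := F12 (X := X) hi₁ hβ N (x := (1 : Fin 4)) (y := 0) (z := 3) (by decide) (by decide)
    (by decide)
  have t3a := k01.symm.low N
  have t3b := k30.high N
  have t3c := mix 3 1 (by decide)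
  -- `∅, {0, 1, 2}`
  have t4 := F03 (X := X) hi₁ hβ N (x := (0 : Fin 4)) (y := 1) (z := 2) (by decide) (by decide)
    (by decide)
  have t4a := k12.high N
  have t4b := mix 2 0 (by decide)
  have t4c := k01.low N
  omega

end Pool.Agent.W834.NG
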