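import Pool.Agent.H20.G.R_seed8.W834.NG.Good

/-!
# Systems of norm equations
-/

set_option autoImplicit false

namespace Pool.Agent.W834.NG

open Finset Module

variable {K I : Type*} [Field K] [DecidableEq I]

/-- the coordinates as functions on the set of solutions -/
def XX (φ : K →+* K) (m : ℕ) (S : Finset K) : Fin m → (S → K) := fun j s => φ^[j] (s : K)

/-- the shifts -/
def αα (φ : K →+* K) (m : ℕ) (c : I → K) : I → Fin m → K := fun i j => φ^[j] (c i)

omit [DecidableEq I] in
theorem v_apply (φ : K →+* K) {m : ℕ} (c : I → K) (S : Finset K) (i : I) (s : S) :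
    v (XX φ m S) (αα φ m c i) univ s = ∏ j : Fin m, φ^[j] ((s : K) + c i) := by
  unfold v XX αα
  rw [Finset.prod_apply]
  refine Finset.prod_congr rfl fun j _ => ?_
  rw [Pi.add_apply, iterate_map_add]
  rfl

theorem card_le_F {m : ℕ} (hm : 0 < m) (φ : K →+* K) (c a : I → K) (T : Finset I)
    (S : Finset K) (b : K → K)
    (hS : ∀ s ∈ S, ∀ i ∈ T, ∏ j : Fin m, φ^[j] (s + c i) = a i * b s) :
    S.card ≤ F (XX φ m S) (αα φ m c) S.card univ ∅ T := by
  classical
  set X := XX φ m S with hX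
  set α := αα φ m c with hα
  set β : S → K := fun s => b s with hβ
  have hv : ∀ i ∈ T, v X (α i) univ = a i • β := by
    intro i hi
    funext s
    rw [hX, hα, v_apply, hS s s.2 i hi]
    rfl
  -- the relations are small
  have hR : ∀ d : ℤ, finrank K (Rel X α univ (deg univ ∅ d) T) ≤
      finrank K (P K X (deg univ ∅ (d - 1))) := by
    intro d
    have h1 : Rel X α univ (deg univ ∅ d) T ≤
        (P K X (deg univ ∅ (d - 1))).map (LinearMap.mulLeft K β) := by
      refine Rel_le_of fun i hi f hf => ?_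
      refine ⟨a i • f, Submodule.smul_mem _ _ ?_, ?_⟩
      · have e : (fun j => deg (univ : Finset (Fin m)) ∅ d j - ind univ j) =
            deg univ ∅ (d - 1) := by
          funext j
          simp [deg, ind]
        rw [e] at hf
        exact hf
      · rw [LinearMap.mulLeft_apply, hv i hi, mul_smul_comm, smul_mul_assoc]
    exact (Submodule.finrank_mono h1).trans (Submodule.finrank_map_le _ _)
  -- telescoping
  have htel : ∀ N : ℕ, finrank K (P K X (deg univ ∅ ((N : ℤ) - 1))) ≤ F X α N univ ∅ T := by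
    intro N
    induction N with
    | zero =>
      have : P K X (deg univ ∅ (((0 : ℕ) : ℤ) - 1)) = ⊥ := by
        apply P_bot (j := (⟨0, hm⟩ : Fin m))
        simp [deg]
      rw [this, finrank_bot]
      exact Nat.zero_le _
    | succ N ih =>
      have e : (((N + 1 : ℕ) : ℤ) - 1) = (N : ℤ) := by push_cast; ring
      rw [e]
      have h1 : F X α (N + 1) univ ∅ T = F X α N univ ∅ T +
          U X α univ (deg univ ∅ (N : ℤ)) T := by
        unfold F
        rw [Finset.sum_range_succ, Finset.union_empty]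
      have h2 := hR (N : ℤ)
      have h3 : U X α univ (deg univ ∅ (N : ℤ)) T = finrank K (P K X (deg univ ∅ (N : ℤ))) -
        finrank K (Rel X α univ (deg univ ∅ (N : ℤ)) T) := rfl
      omega
  -- all functions are polynomials in the first coordinate
  have htop : P K X (deg univ ∅ ((S.card : ℤ) - 1)) = ⊤ := by
    rw [eq_top_iff]
    intro g _
    rcases Finset.eq_empty_or_nonempty S with hS0 | hS0
    · subst hS0
      have : g = 0 := by
        funext s
        exact absurd s.2 (Finset.notMem_empty _)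
      rw [this]
      exact Submodule.zero_mem _
    let F' : K → K := fun W => if h : W ∈ S then g ⟨W, h⟩ else 0
    let p := Lagrange.interpolate S id F'
    have hp : ∀ W : S, p.eval (W : K) = g W := by
      intro W
      have := Lagrange.eval_interpolate_at_node (v := id) F' (Set.injOn_id (S : Set K)) W.2
      rw [id] at this
      rw [this]
      simp [F']
    have hdeg : p.degree < S.card := Lagrange.degree_interpolate_lt F' (Set.injOn_id (S : Set K))
    have hg : g = ∑ n ∈ Finset.range S.card, p.coeff n • (X ⟨0, hm⟩) ^ n := by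
      funext W
      rw [← hp W, Polynomial.eval_eq_sum_range' (n := S.card) ?_]
      · rw [Finset.sum_apply]
        refine Finset.sum_congr rfl fun n _ => ?_
        simp [hX, XX]
      · by_cases h0 : p = 0
        · rw [h0, Polynomial.natDegree_zero]; exact Finset.card_pos.2 hS0
        · exact (Polynomial.natDegree_lt_iff_degree_lt h0).2 hdeg
    rw [hg]
    refine Submodule.sum_mem _ fun n hn => Submodule.smul_mem _ _ ?_
    rw [Finset.mem_range] at hn
    have h1 := mon_mem (K := K) (X := X) (a := deg univ ∅ ((S.card : ℤ) - 1))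
      (Pi.single ⟨0, hm⟩ n) (by
        intro j
        simp only [deg, Finset.mem_univ, if_true]
        by_cases hj : j = ⟨0, hm⟩
        · subst hj; rw [Pi.single_eq_same]; omega
        · rw [Pi.single_eq_of_ne hj]; push_cast; omega)
    have h2 : ∏ j, X j ^ (Pi.single ⟨0, hm⟩ n : Fin m → ℕ) j = (X ⟨0, hm⟩) ^ n := by
      rw [Finset.prod_eq_single ⟨0, hm⟩]
      · rw [Pi.single_eq_same]
      · intro j _ hj
        rw [Pi.single_eq_of_ne hj, pow_zero]
      · intro h; exact absurd (Finset.mem_univ _) h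
    rwa [h2] at h1
  have := htel S.card
  rw [htop, finrank_top, Module.finrank_fintype_fun_eq_card, Fintype.card_coe] at this
  exact this

/-- the cross ratio -/
def cross (c₀ c₁ c₂ c₃ : K) : K := (c₁ - c₃) * (c₂ - c₀) / ((c₃ - c₀) * (c₁ - c₂))

theorem good_of_cross (φ : K →+* K) {m : ℕ} (S : Finset K) (c : I → K)
    (hc : Function.Injective c) {i₀ i₁ i₂ i₃ : I} (h30 : i₃ ≠ i₀) (h12 : i₁ ≠ i₂) {j k : Fin m}
    (hjk : j ≠ k)
    (h : φ^[j] (cross (c i₀) (c i₁) (c i₂) (c i₃)) ≠ φ^[k] (cross (c i₀) (c i₁) (c i₂) (c i₃))) :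
    Good (XX φ m S) (αα φ m c) {i₀, i₁, i₂, i₃} j k := by
  refine fill_pair _ hjk (i₀ := i₀) (i₁ := i₁) (i₂ := i₂) (i₃ := i₃) (by simp) (by simp)
    (by simp) (by simp) ?_
  intro h0
  apply h
  have hne : (c i₃ - c i₀) * (c i₁ - c i₂) ≠ 0 :=
    mul_ne_zero (sub_ne_zero.2 fun h => h30 (hc h)) (sub_ne_zero.2 fun h => h12 (hc h))
  have inj : ∀ n : ℕ, Function.Injective (φ^[n]) := fun n => φ.injective.iterate n
  have hne' : ∀ n : ℕ, φ^[n] ((c i₃ - c i₀) * (c i₁ - c i₂)) ≠ 0 := fun n h1 =>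
    hne (inj n (h1.trans (iterate_map_zero φ n).symm))
  have hdiv : ∀ n : ℕ, φ^[n] (cross (c i₀) (c i₁) (c i₂) (c i₃)) =
      φ^[n] ((c i₁ - c i₃) * (c i₂ - c i₀)) / φ^[n] ((c i₃ - c i₀) * (c i₁ - c i₂)) := by
    intro n
    rw [eq_div_iff (hne' n), ← iterate_map_mul, cross, div_mul_cancel₀ _ hne]
  rw [hdiv, hdiv, div_eq_div_iff (hne' _) (hne' _)]
  simp only [αα, ← iterate_map_sub, ← iterate_map_mul] at h0
  exact h0

/-- all cross ratios fixed: few solutions -/
theorem diag_bound {m : ℕ} (hm : 0 < m) (φ : K →+* K) (c : Fin (m + 2) → K)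
    (hc : Function.Injective c) (a : Fin (m + 2) → K) (ha : ∀ i, a i ≠ 0) (S : Finset K)
    (b : K → K) (hb : ∀ s ∈ S, b s ≠ 0)
    (hS : ∀ s ∈ S, ∀ i, ∏ j : Fin m, φ^[j] (s + c i) = a i * b s) (i₁ i₂ : Fin (m + 2))
    (h01 : i₁ ≠ 0) (h02 : i₂ ≠ 0) (h12 : i₁ ≠ i₂)
    (hd : ∀ i, φ (cross (c 0) (c i₁) (c i₂) (c i)) = cross (c 0) (c i₁) (c i₂) (c i)) :
    S.card ≤ m := by
  classical
  have hNmul : ∀ x y : K, ∏ j : Fin m, φ^[j] (x * y) =
      (∏ j : Fin m, φ^[j] x) * ∏ j : Fin m, φ^[j] y := by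
    intro x y
    rw [← Finset.prod_mul_distrib]
    exact Finset.prod_congr rfl fun j _ => iterate_map_mul φ _ _ _
  have hs0 : ∀ s ∈ S, ∀ i, s + c i ≠ 0 := by
    intro s hs i h0
    have := hS s hs i
    rw [h0] at this
    have h1 : ∏ j : Fin m, φ^[j] (0 : K) = 0 :=
      Finset.prod_eq_zero (Finset.mem_univ (⟨0, hm⟩ : Fin m)) (iterate_map_zero φ _)
    rw [h1] at this
    exact mul_ne_zero (ha i) (hb s hs) this.symm
  set γ : Fin (m + 2) → K := fun i => cross (c 0) (c i₁) (c i₂) (c i) with hγ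
  -- the new variable
  set y : K → K := fun s => (s + c i₁) * (c i₂ - c 0) / ((s + c 0) * (c i₁ - c i₂)) with hy
  have d10 : c i₁ - c 0 ≠ 0 := sub_ne_zero.2 fun h => h01 (hc h)
  have d20 : c i₂ - c 0 ≠ 0 := sub_ne_zero.2 fun h => h02 (hc h)
  have d12 : c i₁ - c i₂ ≠ 0 := sub_ne_zero.2 fun h => h12 (hc h)
  have hyγ : ∀ s ∈ S, ∀ i, i ≠ 0 → y s + γ i =
      (s + c i) * ((s + c 0)⁻¹ * ((c i₁ - c 0) * (c i₂ - c 0) / ((c i - c 0) * (c i₁ - c i₂)))) := by
    intro s hs i hi
    have di : c i - c 0 ≠ 0 := sub_ne_zero.2 fun h => hi (hc h)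
    have hs00 := hs0 s hs 0
    simp only [hy, hγ, cross]
    field_simp
    ring
  have hval : ∀ s ∈ S, ∀ s' ∈ S, ∀ i, i ≠ 0 → ∏ j : Fin m, φ^[j] (y s + γ i) =
      ∏ j : Fin m, φ^[j] (y s' + γ i) := by
    intro s hs s' hs' i hi
    have key : ∀ t ∈ S, ∏ j : Fin m, φ^[j] (y t + γ i) = a i / a 0 *
        ∏ j : Fin m, φ^[j] ((c i₁ - c 0) * (c i₂ - c 0) / ((c i - c 0) * (c i₁ - c i₂))) := by
      intro t ht
      rw [hyγ t ht i hi, hNmul, hNmul, hS t ht i]
      have h1 : (∏ j : Fin m, φ^[j] ((t + c 0)⁻¹)) * (a 0 * b t) = 1 := by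
        rw [← hS t ht 0, ← hNmul, inv_mul_cancel₀ (hs0 t ht 0)]
        exact Finset.prod_eq_one fun j _ => iterate_map_one φ _
      have h2 : ∏ j : Fin m, φ^[j] ((t + c 0)⁻¹) = (a 0 * b t)⁻¹ :=
        eq_inv_of_mul_eq_one_left h1
      rw [h2]
      have := ha 0
      have := hb t ht
      field_simp
    rw [key s hs, key s' hs']
  -- the polynomials
  have hfix : ∀ (n : ℕ) (i : Fin (m + 2)), φ^[n] (γ i) = γ i := by
    intro n i
    exact Function.iterate_fixed (hd i) n
  set p : K → Polynomial K := fun u => ∏ j : Fin m, (Polynomial.X + Polynomial.C (φ^[j] u))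
    with hp
  have hpdeg : ∀ u, (p u).natDegree = m := by
    intro u
    simp only [hp]
    rw [Polynomial.natDegree_prod_of_monic _ _ fun j _ => Polynomial.monic_X_add_C _]
    simp
  have hpe : ∀ u z, (p u).eval z = ∏ j : Fin m, (z + φ^[j] u) := by
    intro u z
    simp only [hp, Polynomial.eval_prod, Polynomial.eval_add, Polynomial.eval_X,
      Polynomial.eval_C]
  have hpγ : ∀ u i, (p u).eval (γ i) = ∏ j : Fin m, φ^[j] (u + γ i) := by
    intro u i
    rw [hpe]
    refine Finset.prod_congr rfl fun j _ => ?_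
    rw [iterate_map_add, hfix, add_comm]
  have hγinj : Function.Injective fun i : Fin (m + 1) => γ i.succ := by
    intro i i' hii
    simp only [hγ, cross] at hii
    have di : c i.succ - c 0 ≠ 0 := sub_ne_zero.2 fun h => Fin.succ_ne_zero i (hc h)
    have di' : c i'.succ - c 0 ≠ 0 := sub_ne_zero.2 fun h => Fin.succ_ne_zero i' (hc h)
    rw [div_eq_div_iff (mul_ne_zero di d12) (mul_ne_zero di' d12)] at hii
    have h1 : (c i₁ - c i.succ) * (c i'.succ - c 0) = (c i₁ - c i'.succ) * (c i.succ - c 0) := by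
      have h2 : ((c i₂ - c 0) * (c i₁ - c i₂)) * ((c i₁ - c i.succ) * (c i'.succ - c 0)) =
          ((c i₂ - c 0) * (c i₁ - c i₂)) * ((c i₁ - c i'.succ) * (c i.succ - c 0)) := by
        linear_combination hii
      exact mul_left_cancel₀ (mul_ne_zero d20 d12) h2
    have h3 : (c i₁ - c 0) * (c i.succ - c i'.succ) = 0 := by linear_combination -h1
    have h4 : c i.succ = c i'.succ := by
      rcases mul_eq_zero.1 h3 with h | h
      · exact absurd h d10
      · exact sub_eq_zero.1 h
    exact Fin.succ_injective _ (hc h4)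
  have hpeq : ∀ s ∈ S, ∀ s' ∈ S, p (y s) = p (y s') := by
    intro s hs s' hs'
    refine Polynomial.eq_of_natDegree_lt_card_of_eval_eq _ _ hγinj (fun i => ?_) ?_
    · rw [hpγ, hpγ]
      exact hval s hs s' hs' _ (Fin.succ_ne_zero i)
    · rw [hpdeg, hpdeg, Fintype.card_fin]; simp
  have hyinj : Set.InjOn y S := by
    intro s hs s' hs' hss
    simp only [hy] at hss
    have e := hs0 s hs 0
    have e' := hs0 s' hs' 0
    rw [div_eq_div_iff (mul_ne_zero e d12) (mul_ne_zero e' d12)] at hss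
    have h1 : (s + c i₁) * (s' + c 0) = (s' + c i₁) * (s + c 0) := by
      have h2 : ((c i₂ - c 0) * (c i₁ - c i₂)) * ((s + c i₁) * (s' + c 0)) =
          ((c i₂ - c 0) * (c i₁ - c i₂)) * ((s' + c i₁) * (s + c 0)) := by
        linear_combination hss
      exact mul_left_cancel₀ (mul_ne_zero d20 d12) h2
    have h3 : (c i₁ - c 0) * (s - s') = 0 := by linear_combination -h1
    rcases mul_eq_zero.1 h3 with h | h
    · exact absurd h d10
    · exact sub_eq_zero.1 h
  rcases Finset.eq_empty_or_nonempty S with h0 | ⟨s, hs⟩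
  · rw [h0, Finset.card_empty]; exact Nat.zero_le _
  rw [← Finset.card_image_of_injOn hyinj]
  have hsub : S.image y ⊆ (univ : Finset (Fin m)).image fun j : Fin m => φ^[(j : ℕ)] (y s) := by
    intro u hu
    obtain ⟨s', hs', rfl⟩ := Finset.mem_image.1 hu
    have h1 : (p (y s')).eval (-(y s')) = 0 := by
      rw [hpe]
      refine Finset.prod_eq_zero (Finset.mem_univ (⟨0, hm⟩ : Fin m)) ?_
      simp
    rw [← hpeq s hs s' hs', hpe, Finset.prod_eq_zero_iff] at h1
    obtain ⟨j, _, hj⟩ := h1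
    refine Finset.mem_image.2 ⟨j, Finset.mem_univ _, ?_⟩
    linear_combination hj
  refine (Finset.card_le_card hsub).trans (Finset.card_image_le.trans ?_)
  simp

end Pool.Agent.W834.NG
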